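import Pool.Agent.KS6_38.CE.Lower

set_option autoImplicit false

/-!
# The critical exponent of binary matroids without a wheel minor grows linearly

Let `k(r)` be the largest critical exponent `c(M; 2)` of a loopless binary matroid `M` with no
minor `M(W_r)`. Then `r - 1 ≤ k(r) ≤ min (4 (r - 1), ⌈2 r + 3 log₂ r - 1⌉)`.

Proof of the upper bound. Small fan-free and wheel-free density: a simple binary matroid of rank
`m` without `M(W_r)` has at most `D m` elements, `D = (r - 2) 2 ^ (r - 2) + 1` (the elements on
a triangle with the end `e` of a maximal fan have rank at most `2 r - 4` in `M / e`, and there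
they contain no fan with `r - 1` spokes, since a cone over such a fan contains `M(W_r)`).
Wheels are self-dual, so the rows of a representation `[I | A]` have few traces on sets of
columns, and shatter no set of `r` columns. Haussler's packing argument shows that two rows are
close, or a row is short: there is a cocircuit with at most `8 r D (D - 1) + 2` elements. Deleting
it and extending a colouring by one functional gives the bound.
-/

namespace Pool.Agent.Results.MP_68998c_co.LinearBound

open Pool.Agent.KS6_38.CE

/-- **Main theorem.** Let `r ≥ 3`. Every loopless binary matroid `M` without a minor isomorphic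
to the cycle matroid of the wheel with `r` spokes satisfies `c(M; 2) ≤ 4 (r - 1)`, and also
`c(M; 2) ≤ k` for every `k` with `r ^ 3 4 ^ r ≤ 2 ^ (k + 1)`. No bound smaller than `r - 1` holds
for all these matroids. -/
theorem result (r : ℕ) (hr : 3 ≤ r) :
    Bounds r (4 * (r - 1)) ∧ (∀ k : ℕ, r ^ 3 * 4 ^ r ≤ 2 ^ (k + 1) → Bounds r k) ∧
      (∀ k : ℕ, Bounds r k → r - 1 ≤ k) :=
  main r hr

end Pool.Agent.Results.MP_68998c_co.LinearBound
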